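import Pool.Agent.helper35.MR.SpecA

/-!
# Project mr, module P1: large slice rank implies an order type tensor which is not `Low`
-/

set_option autoImplicit false

open Finset

namespace Pool.Agent.helper35.MR

open Pool.Agent.RRank

/-- the ranks of the entries of a tuple -/
def P1_rk {d : ℕ} (x : Fin d → ℤ) (α : Fin d) : ℕ := (univ.filter fun β => x β < x α).card

theorem P1_rk_lt {d : ℕ} (x : Fin d → ℤ) (α : Fin d) : P1_rk x α < d := by
  have h : (univ.filter fun β => x β < x α).card < (univ : Finset (Fin d)).card := by
    apply card_lt_card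
    rw [Finset.ssubset_iff_of_subset (filter_subset _ _)]
    exact ⟨α, mem_univ _, by simp⟩
  rw [card_univ, Fintype.card_fin] at h
  exact h

theorem P1_rk_iff {d : ℕ} (x : Fin d → ℤ) (α β : Fin d) : P1_rk x α < P1_rk x β ↔ x α < x β := by
  constructor
  · intro h
    by_contra hc
    push Not at hc
    have h1 : P1_rk x β ≤ P1_rk x α := by
      apply card_le_card
      intro γ hγ
      rw [mem_filter] at hγ ⊢
      exact ⟨hγ.1, lt_of_lt_of_le hγ.2 hc⟩
    omega
  · intro h
    apply card_lt_card
    have hsub : (univ.filter fun γ => x γ < x α) ⊆ univ.filter fun γ => x γ < x β := by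
      intro γ hγ
      rw [mem_filter] at hγ ⊢
      exact ⟨hγ.1, hγ.2.trans h⟩
    rw [Finset.ssubset_iff_of_subset hsub]
    exact ⟨α, by simp [h], by simp⟩

theorem P1_low_sum {d : ℕ} {K : Type} [Field K] {ι : Type} (s : Finset ι) (c : ι → K)
    (V : ι → (Fin d → ℤ) → K) (h : ∀ i, Low (V i)) : Low (fun x => ∑ i ∈ s, c i * V i x) := by
  choose g h1 h2 h3 using h
  refine ⟨fun α x => ∑ i ∈ s, c i * g i α x, ?_, ?_, ?_⟩
  · intro α x y hxy
    exact sum_congr rfl fun i _ => by rw [h1 i α x y hxy]
  · intro α x y hxy
    exact sum_congr rfl fun i _ => by rw [h2 i α x y hxy]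
  · intro x
    rw [sum_comm]
    exact sum_congr rfl fun i _ => by rw [h3, mul_sum]

theorem P1 (hRAM : RAM_stmt) (hBLK : BLK_stmt) (hLW : LW_stmt) : P1_stmt := by
  intro d m N hd
  obtain ⟨n, hn⟩ := hRAM d (N + d) (Fintype.card ((Fin d → Bool) → Fin m))
  obtain ⟨G, hG⟩ := hBLK d m n hd
  refine ⟨G, fun K _ val Q T hT => ?_⟩
  obtain ⟨f, hf1, hf2⟩ := hG K val Q T hT
  obtain ⟨h, hmono, hc⟩ := hn (fun i => Fintype.equivFin _
    (fun e : Fin d → Bool => T (fun β => f β (i β) (e β))))
  have hc' : ∀ (i j : Fin d → Fin (N + d)), (∀ α β, i α < i β ↔ j α < j β) →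
      ∀ e : Fin d → Bool, T (fun β => f β (h (i β)) (e β)) = T (fun β => f β (h (j β)) (e β)) :=
    fun i j hij e => congrFun ((Fintype.equivFin _).injective (hc i j hij)) e
  let r : (Fin d → ℤ) → Fin d → Fin (N + d) := fun x α =>
    ⟨P1_rk x α, by have := P1_rk_lt x α; omega⟩
  have hr : ∀ x α β, r x α < r x β ↔ x α < x β := fun x α β => P1_rk_iff x α β
  have hrOT : ∀ x y, SameOT x y → r x = r y := by
    intro x y hxy
    funext α
    apply Fin.ext
    change (univ.filter fun β => x β < x α).card = (univ.filter fun β => y β < y α).card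
    congr 1
    ext β
    simp only [mem_filter, mem_univ, true_and]
    exact hxy β α
  let V : (Fin d → Bool) → (Fin d → ℤ) → Fin m := fun e x => T (fun β => f β (h (r x β)) (e β))
  have hV : ∀ e, OT (V e) := fun e x y hxy => by simp only [V, hrOT x y hxy]
  let W : (Fin d → ℤ) → K := fun x =>
    ∑ e : Fin d → Bool, (∏ α, if e α then (-1 : K) else 1) * val (V e x)
  have hW : ¬ Low W := by
    apply hLW d (by omega) K W
    · intro x y hxy
      exact sum_congr rfl fun e _ => by rw [hV e x y hxy]
    · rintro x ⟨α, hα⟩
      refine Finset.sum_involution (fun e _ => Function.update e α (!e α)) ?_ ?_ ?_ ?_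
      · intro e _
        have h1 : V (Function.update e α (!e α)) x = V e x := by
          refine (hf2 (fun β => h (r x β)) (Function.update e α (!e α)) e α ?_ ?_)
          · intro β hβ
            exact hmono ((hr x β α).2 (hα β hβ))
          · intro β hβ
            rw [Function.update_of_ne hβ]
        have h2 : (∏ β, if Function.update e α (!e α) β then (-1 : K) else 1) =
            -(∏ β, if e β then (-1 : K) else 1) := by
          rw [← mul_prod_erase univ _ (mem_univ α), ← mul_prod_erase univ
            (fun β => if e β then (-1 : K) else 1) (mem_univ α)]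
          have h3 : ∀ β ∈ univ.erase α, (if Function.update e α (!e α) β then (-1 : K) else 1) =
              if e β then (-1 : K) else 1 := by
            intro β hβ
            rw [Function.update_of_ne (ne_of_mem_erase hβ)]
          rw [prod_congr rfl h3, Function.update_self]
          cases e α <;> simp
        rw [h1, h2]
        ring
      · intro e _ _ heq
        have h1 := congrFun heq α
        rw [Function.update_self] at h1
        cases h2 : e α <;> simp [h2] at h1
      · intro e _
        exact mem_univ _
      · intro e _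
        simp
    · have h0 : ∀ β, r (fun _ => 0) β = ⟨0, by omega⟩ := by
        intro β
        apply Fin.ext
        change (univ.filter fun γ : Fin d => (0 : ℤ) < 0).card = 0
        simp
      have h1 : W (fun _ => 0) = alt (fun x => val (T x)) (fun β => f β (h ⟨0, by omega⟩) false)
          (fun β => f β (h ⟨0, by omega⟩) true) := by
        refine sum_congr rfl fun e _ => ?_
        congr 2
        change T _ = T _
        congr 1
        funext β
        rw [h0]
        cases e β <;> simp
      rw [h1]
      exact hf1 _
  obtain ⟨e, he⟩ : ∃ e, ¬ Low (fun x => val (V e x)) := by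
    by_contra hcon
    push Not at hcon
    exact hW (P1_low_sum univ _ (fun e x => val (V e x)) hcon)
  refine ⟨V e, hV e, he, fun α i => f α (h (Fin.castAdd d i)) (e α), fun i => ?_⟩
  refine hc' (fun α => Fin.castAdd d (i α)) (r fun α => ((i α : ℕ) : ℤ)) (fun α β => ?_) e
  rw [hr, Nat.cast_lt]
  exact Iff.rfl

end Pool.Agent.helper35.MR
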