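import Pool.Agent.helper35.MR.SpecA

/-!
# Project mr, module RAM: finite Ramsey theorem for order types
-/

set_option autoImplicit false

open Finset

namespace Pool.Agent.helper35.MR

open Pool.Agent.RRank

theorem RAM_R (r : ℕ) : ∀ (C : Type) [Fintype C] (N : ℕ), ∃ n : ℕ, ∀ (c : Finset ℕ → C)
    (S : Finset ℕ), n ≤ S.card → ∃ T ⊆ S, T.card = N ∧
      ∀ A ⊆ T, ∀ B ⊆ T, A.card = r → B.card = r → c A = c B := by
  induction r with
  | zero =>
    intro C _ N
    refine ⟨N, fun c S hS => ?_⟩
    obtain ⟨T, hT, hTN⟩ := exists_subset_card_eq hS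
    exact ⟨T, hT, hTN, fun A _ B _ hA hB => by rw [card_eq_zero.1 hA, card_eq_zero.1 hB]⟩
  | succ r ih =>
    intro C _ N
    classical
    have hP : ∀ L : ℕ, ∃ n : ℕ, ∀ (c : Finset ℕ → C) (S : Finset ℕ), n ≤ S.card →
        ∃ T ⊆ S, T.card = L ∧ ∃ col : ℕ → C, ∀ x ∈ T, ∀ A ⊆ T, (∀ a ∈ A, x < a) → A.card = r →
          c (insert x A) = col x := by
      intro L
      induction L with
      | zero =>
        exact ⟨0, fun c S _ => ⟨∅, empty_subset _, rfl, fun _ => c ∅,
          fun x hx => absurd hx (notMem_empty x)⟩⟩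
      | succ L ihL =>
        obtain ⟨n1, h1⟩ := ihL
        obtain ⟨n2, h2⟩ := ih C n1
        refine ⟨n2 + 1, fun c S hS => ?_⟩
        have hne : S.Nonempty := card_pos.1 (by omega)
        set x := S.min' hne with hx
        obtain ⟨T', hT'S, hT'c, hT'⟩ := h2 (fun A => c (insert x A)) (S.erase x)
          (by rw [card_erase_of_mem (min'_mem _ _)]; omega)
        obtain ⟨T'', hT''T', hT''c, col, hcol⟩ := h1 c T' hT'c.ge
        have hxT : ∀ a ∈ T'', x < a := fun a ha =>
          min'_lt_of_mem_erase_min' _ _ (hT'S (hT''T' ha))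
        refine ⟨insert x T'', insert_subset (min'_mem _ _)
          (hT''T'.trans (hT'S.trans (erase_subset _ _))), ?_, ?_⟩
        · rw [card_insert_of_notMem (fun h => lt_irrefl _ (hxT x h)), hT''c]
        · obtain ⟨cx, hcx⟩ : ∃ cx, ∀ A ⊆ T', A.card = r → c (insert x A) = cx := by
            by_cases hex : ∃ A0 ⊆ T', A0.card = r
            · obtain ⟨A0, hA0, hA0c⟩ := hex
              exact ⟨c (insert x A0), fun A hA hAc => hT' A hA A0 hA0 hAc hA0c⟩
            · push Not at hex
              exact ⟨c ∅, fun A hA hAc => absurd hAc (hex A hA)⟩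
          refine ⟨fun y => if y = x then cx else col y, ?_⟩
          intro y hy A hA hyA hAc
          have hxy : x ≤ y := by
            rcases mem_insert.1 hy with h | h
            · exact h.ge
            · exact (hxT y h).le
          have hAT : A ⊆ T'' := by
            intro a ha
            rcases mem_insert.1 (hA ha) with h | h
            · exact absurd (hyA a ha) (by omega)
            · exact h
          change c (insert y A) = if y = x then cx else col y
          by_cases hyx : y = x
          · rw [if_pos hyx, hyx]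
            exact hcx A (hAT.trans hT''T') hAc
          · rw [if_neg hyx]
            exact hcol y ((mem_insert.1 hy).resolve_left hyx) A hAT hyA hAc
    obtain ⟨n, hn⟩ := hP (Fintype.card C * N)
    refine ⟨n, fun c S hS => ?_⟩
    obtain ⟨T, hTS, hTc, col, hcol⟩ := hn c S hS
    obtain ⟨y, -, hy⟩ := exists_le_card_fiber_of_mul_le_card_of_maps_to
      (s := T) (t := (univ : Finset C)) (f := col) (n := N) (fun a _ => mem_univ _)
      ⟨c ∅, mem_univ _⟩ (by rw [card_univ, hTc])
    obtain ⟨T', hT', hT'c⟩ := exists_subset_card_eq hy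
    have key : ∀ A ⊆ T', A.card = r + 1 → c A = y := by
      intro A hA hAc
      have hne : A.Nonempty := card_pos.1 (by omega)
      have h1 := hT' (hA (min'_mem A hne))
      rw [mem_filter] at h1
      have h2 := hcol (A.min' hne) h1.1 (A.erase (A.min' hne))
        ((erase_subset _ _).trans (hA.trans (hT'.trans (filter_subset _ _))))
        (fun a ha => min'_lt_of_mem_erase_min' _ _ ha)
        (by rw [card_erase_of_mem (min'_mem _ _), hAc]; rfl)
      rw [insert_erase (min'_mem _ _), h1.2] at h2
      exact h2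
    exact ⟨T', hT'.trans ((filter_subset _ _).trans hTS), hT'c,
      fun A hA B hB hAc hBc => by rw [key A hA hAc, key B hB hBc]⟩

theorem RAM_R' (d : ℕ) : ∀ (C : Type) [Fintype C] (N : ℕ), ∃ n : ℕ, ∀ (c : Finset ℕ → C)
    (S : Finset ℕ), n ≤ S.card → ∃ T ⊆ S, T.card = N ∧
      ∀ A ⊆ T, ∀ B ⊆ T, A.card < d → A.card = B.card → c A = c B := by
  induction d with
  | zero =>
    intro C _ N
    refine ⟨N, fun c S hS => ?_⟩
    obtain ⟨T, hT, hTN⟩ := exists_subset_card_eq hS
    exact ⟨T, hT, hTN, fun A _ B _ hA => absurd hA (Nat.not_lt_zero _)⟩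
  | succ d ih =>
    intro C _ N
    obtain ⟨n1, h1⟩ := ih C N
    obtain ⟨n2, h2⟩ := RAM_R d C n1
    refine ⟨n2, fun c S hS => ?_⟩
    obtain ⟨T, hTS, hTc, hT⟩ := h2 c S hS
    obtain ⟨T', hT'T, hT'c, hT'⟩ := h1 c T hTc.ge
    refine ⟨T', hT'T.trans hTS, hT'c, fun A hA B hB hAd hAB => ?_⟩
    rcases Nat.lt_succ_iff_lt_or_eq.1 hAd with h | h
    · exact hT' A hA B hB h hAB
    · exact hT A (hA.trans hT'T) B (hB.trans hT'T) h (by rw [← hAB, h])

theorem RAM_card {A B C : Type} [DecidableEq B] [DecidableEq C] (s : Finset A) (f : A → B)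
    (g : A → C) (h : ∀ a b, f a = f b → g a = g b) : (s.image g).card ≤ (s.image f).card := by
  classical
  rcases s.eq_empty_or_nonempty with rfl | ⟨a0, _⟩
  · simp
  · have h1 : s.image g = (s.image f).image (Function.extend f g (fun _ => g a0)) := by
      rw [image_image]
      apply image_congr
      intro a _
      exact (Function.FactorsThrough.extend_apply (fun a b => h a b) _ a).symm
    rw [h1]
    exact card_image_le

theorem RAM : RAM_stmt := by
  intro d N m
  classical
  obtain ⟨n, hn⟩ := RAM_R' (d + 1) ((Fin d → Fin (d + 1)) → Option (Fin m)) N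
  refine ⟨n, fun c => ?_⟩
  let cc : (Fin d → ℕ) → Option (Fin m) := fun x =>
    if h : ∀ α, x α < n then some (c fun α => ⟨x α, h α⟩) else none
  obtain ⟨T, hTS, hTc, hT⟩ := hn
    (fun A g => cc (fun α => Nat.nth (· ∈ A) (g α))) (range n) (by rw [card_range])
  have hlt : ∀ i : Fin N, T.orderEmbOfFin hTc i < n := fun i =>
    mem_range.1 (hTS (orderEmbOfFin_mem T hTc i))
  let h : Fin N → Fin n := fun i => ⟨T.orderEmbOfFin hTc i, hlt i⟩
  have hmono : StrictMono h := fun i j hij => (T.orderEmbOfFin hTc).strictMono hij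
  refine ⟨h, hmono, fun i j hij => ?_⟩
  -- the set of values of a tuple
  let im : (Fin d → Fin N) → Finset ℕ := fun i => univ.image fun α => (h (i α) : ℕ)
  have himT : ∀ i, im i ⊆ T := by
    intro i x hx
    obtain ⟨α, -, rfl⟩ := mem_image.1 hx
    exact orderEmbOfFin_mem T hTc (i α)
  have himc : ∀ i, (im i).card < d + 1 := by
    intro i
    have h1 : (im i).card ≤ _ := card_image_le
    rw [card_univ, Fintype.card_fin] at h1
    omega
  have hinj : ∀ a b : Fin N, (h a : ℕ) = h b ↔ a = b := fun a b =>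
    ⟨fun hab => hmono.injective (Fin.ext hab), fun hab => by rw [hab]⟩
  have hcount : ∀ (i : Fin d → Fin N) (α : Fin d), Nat.count (· ∈ im i) (h (i α)) =
      ((univ.filter fun β => i β < i α).image fun β => (h (i β) : ℕ)).card := by
    intro i α
    rw [Nat.count_eq_card_filter_range]
    congr 1
    ext x
    simp only [mem_filter, mem_range, mem_image, mem_univ, true_and, im]
    constructor
    · rintro ⟨hx, β, rfl⟩
      refine ⟨β, ?_, rfl⟩
      by_contra hcon
      push Not at hcon
      have := hmono.monotone hcon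
      rw [Fin.le_def] at this
      omega
    · rintro ⟨β, hβ, rfl⟩
      exact ⟨hmono hβ, β, rfl⟩
  have heq : ∀ β γ, i β = i γ ↔ j β = j γ := by
    intro β γ
    have h1 := hij β γ
    have h2 := hij γ β
    constructor
    · intro h3
      rw [h3] at h1 h2
      exact le_antisymm (not_lt.1 fun h4 => lt_irrefl _ (h2.2 h4))
        (not_lt.1 fun h4 => lt_irrefl _ (h1.2 h4))
    · intro h3
      rw [h3] at h1 h2
      exact le_antisymm (not_lt.1 fun h4 => lt_irrefl _ (h2.1 h4))
        (not_lt.1 fun h4 => lt_irrefl _ (h1.1 h4))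
  have hcard : ∀ s : Finset (Fin d), (s.image fun β => (h (i β) : ℕ)).card =
      (s.image fun β => (h (j β) : ℕ)).card := by
    intro s
    apply le_antisymm
    · exact RAM_card s _ _ fun β γ hβγ => (hinj _ _).2 ((heq β γ).2 ((hinj _ _).1 hβγ))
    · exact RAM_card s _ _ fun β γ hβγ => (hinj _ _).2 ((heq β γ).1 ((hinj _ _).1 hβγ))
  have hrk : ∀ α, Nat.count (· ∈ im i) (h (i α)) = Nat.count (· ∈ im j) (h (j α)) := by
    intro α
    rw [hcount, hcount]
    have h1 : (univ.filter fun β => i β < i α) = univ.filter fun β => j β < j α := by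
      ext β
      simp only [mem_filter, mem_univ, true_and]
      exact hij β α
    rw [h1]
    exact hcard _
  have hbd : ∀ α, Nat.count (· ∈ im i) (h (i α)) < d + 1 := by
    intro α
    rw [hcount]
    have h1 := (card_image_le (s := univ.filter fun β => i β < i α)
      (f := fun β => (h (i β) : ℕ)))
    have h2 := card_le_univ (univ.filter fun β => i β < i α)
    rw [Fintype.card_fin] at h2
    omega
  have hmem : ∀ (i : Fin d → Fin N) (α : Fin d), (h (i α) : ℕ) ∈ im i := fun i α =>
    mem_image.2 ⟨α, mem_univ _, rfl⟩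
  have h1 := congrFun (hT (im i) (himT i) (im j) (himT j) (himc i) (hcard univ))
    (fun α => ⟨Nat.count (· ∈ im i) (h (i α)), hbd α⟩)
  have h2 : (fun α => Nat.nth (· ∈ im i) (Nat.count (· ∈ im i) (h (i α)))) =
      fun α => (h (i α) : ℕ) := funext fun α => Nat.nth_count (hmem i α)
  have h3 : (fun α => Nat.nth (· ∈ im j) (Nat.count (· ∈ im i) (h (i α)))) =
      fun α => (h (j α) : ℕ) := funext fun α => by
    rw [hrk]
    exact Nat.nth_count (hmem j α)
  simp only at h1
  rw [h2, h3] at h1
  have h4 : ∀ i : Fin d → Fin N, cc (fun α => (h (i α) : ℕ)) = some (c fun α => h (i α)) := by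
    intro i
    simp only [cc]
    rw [dif_pos (fun α => (h (i α)).2)]
  rw [h4, h4] at h1
  exact Option.some.inj h1

end Pool.Agent.helper35.MR
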