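import Pool.Agent.helper35.MR.SpecB

/-! # Project mr, module WBF (helper90) -/

set_option autoImplicit false

open Finset

namespace Pool.Agent.helper35.MR

open Finset Pool.Agent.RRank

theorem WBF_ev4 {K : Type} [Field K] {l : ℕ} (X Z B : Fin l → Fin l → K) (u v w q : Fin l → K) :
    ev4 (fun i j k m : Fin l => X i j * B k m + Z i j) u v w q =
      ev2 X u v * ev2 B w q + ev2 Z u v * ev2 (fun _ _ : Fin l => (1 : K)) w q := by
  unfold ev4 ev2
  simp only [Finset.sum_mul]
  simp only [Finset.mul_sum]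
  simp only [← Finset.sum_add_distrib]
  refine Finset.sum_congr rfl fun i _ => ?_
  refine Finset.sum_congr rfl fun j _ => ?_
  refine Finset.sum_congr rfl fun k _ => ?_
  refine Finset.sum_congr rfl fun m _ => ?_
  ring

theorem WBF_ev2 {K : Type} [Field K] {l : ℕ} (B : Fin l → Fin l → K) (c : K) (w q : Fin l → K) :
    ev2 (fun i j : Fin l => B i j - c) w q =
      ev2 B w q - c * ev2 (fun _ _ : Fin l => (1 : K)) w q := by
  unfold ev2
  simp only [Finset.mul_sum, ← Finset.sum_sub_distrib]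
  refine Finset.sum_congr rfl fun i _ => ?_
  refine Finset.sum_congr rfl fun j _ => ?_
  ring

theorem WBF_single {K : Type} [Field K] {l : ℕ} (B : Fin l → Fin l → K) (i j : Fin l) :
    ev2 B (Pi.single i 1) (Pi.single j 1) = B i j := by
  unfold ev2
  rw [Finset.sum_eq_single i]
  · rw [Finset.sum_eq_single j]
    · simp
    · intro b _ hb
      simp [Pi.single_eq_of_ne hb]
    · intro h
      exact absurd (Finset.mem_univ j) h
  · intro b _ hb
    refine Finset.sum_eq_zero fun k _ => ?_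
    simp [Pi.single_eq_of_ne hb]
  · intro h
    exact absurd (Finset.mem_univ i) h

theorem WBF_gen (hRB : RB_stmt) {K : Type} [Field K] {l : ℕ} (X Z B : Fin l → Fin l → K)
    (hX : (Matrix.of X).det ≠ 0) (c₀ : K)
    (h1 : ∀ c : K, c ≠ c₀ → l ≤ (Matrix.of (fun i j : Fin l => B i j - c)).rank)
    (h2 : l ≤ (Matrix.of (fun i j : Fin l => B i j - c₀)).rank + 1)
    (hne : ∃ i j, c₀ * X i j + Z i j ≠ 0) :
    Full4 (fun i j k m : Fin l => X i j * B k m + Z i j) := by
  intro U₁ U₂ U₃ U₄ hdim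
  rw [Fintype.card_fin] at hdim
  by_contra hcon
  push Not at hcon
  have hU : ∀ U : Submodule K (Fin l → K), Module.finrank K U ≤ l := by
    intro U
    have := Submodule.finrank_le U
    rwa [Module.finrank_fin_fun] at this
  have hd1 := hU U₁
  have hd2 := hU U₂
  have hd3 := hU U₃
  have hd4 := hU U₄
  -- a pair with `X ≠ 0`
  have hXr : (Matrix.of X).rank = l := by
    rw [Matrix.rank_of_isUnit _ ((Matrix.isUnit_iff_isUnit_det _).mpr (isUnit_iff_ne_zero.mpr hX)),
      Fintype.card_fin]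
  have hpair : ∃ u ∈ U₁, ∃ v ∈ U₂, ev2 X u v ≠ 0 := by
    by_contra hno
    push Not at hno
    have := hRB K l X U₁ U₂ hno
    rw [hXr] at this
    omega
  obtain ⟨u₀, hu₀, v₀, hv₀, ha⟩ := hpair
  set a := ev2 X u₀ v₀ with ha'
  set c := ev2 Z u₀ v₀ with hc'
  have hker : ∀ w ∈ U₃, ∀ q ∈ U₄, ev2 (fun i j : Fin l => B i j - (-(c / a))) w q = 0 := by
    intro w hw q hq
    have h3 := hcon u₀ hu₀ v₀ hv₀ w hw q hq
    rw [WBF_ev4] at h3
    rw [WBF_ev2]
    have h4 : a * (ev2 B w q - -(c / a) * ev2 (fun _ _ : Fin l => (1 : K)) w q) = 0 := by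
      have h5 : a * (c / a) = c := by field_simp
      linear_combination h3 + ev2 (fun _ _ : Fin l => (1 : K)) w q * h5
    rcases mul_eq_zero.mp h4 with h5 | h5
    · exact absurd h5 ha
    · exact h5
  have hlam : -(c / a) = c₀ := by
    by_contra hcc
    have h3 := h1 _ hcc
    have h4 := hRB K l _ U₃ U₄ hker
    omega
  rw [hlam] at hker
  have h34 := hRB K l _ U₃ U₄ hker
  have h12 : Module.finrank K U₁ = l ∧ Module.finrank K U₂ = l := by omega
  have htop : ∀ U : Submodule K (Fin l → K), Module.finrank K U = l → U = ⊤ := by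
    intro U h
    apply Submodule.eq_top_of_finrank_eq
    rw [h, Module.finrank_fin_fun]
  have hT1 := htop U₁ h12.1
  have hT2 := htop U₂ h12.2
  -- `J ≠ 0` on `U₃ × U₄`
  have hJ : ∃ w ∈ U₃, ∃ q ∈ U₄, ev2 (fun _ _ : Fin l => (1 : K)) w q ≠ 0 := by
    by_contra hno
    push Not at hno
    have h3 := h1 (c₀ + 1) (by simp)
    have h4 := hRB K l (fun i j : Fin l => B i j - (c₀ + 1)) U₃ U₄ (by
      intro w hw q hq
      have h5 := hker w hw q hq
      rw [WBF_ev2, hno w hw q hq, mul_zero, sub_zero] at h5 ⊢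
      exact h5)
    omega
  obtain ⟨w, hw, q, hq, hJ⟩ := hJ
  obtain ⟨i, j, hij⟩ := hne
  apply hij
  have h3 := hcon (Pi.single i 1) (by rw [hT1]; trivial) (Pi.single j 1) (by rw [hT2]; trivial)
    w hw q hq
  rw [WBF_ev4, WBF_single, WBF_single] at h3
  have h4 := hker w hw q hq
  rw [WBF_ev2] at h4
  have h5 : (c₀ * X i j + Z i j) * ev2 (fun _ _ : Fin l => (1 : K)) w q = 0 := by
    linear_combination h3 - X i j * h4
  rcases mul_eq_zero.mp h5 with h6 | h6
  · exact h6
  · exact absurd h6 hJ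

theorem WBF (hRB : RB_stmt) (hDT : DT_stmt) : WBF_stmt := by
  intro K _ l hl X Z hX
  obtain ⟨d1, d2, -, -, d5, d6⟩ := hDT K l (by omega)
  have hrk : ∀ M : Matrix (Fin l) (Fin l) K, M.det ≠ 0 → l ≤ M.rank := by
    intro M hM
    rw [Matrix.rank_of_isUnit _ ((Matrix.isUnit_iff_isUnit_det _).mpr (isUnit_iff_ne_zero.mpr hM)),
      Fintype.card_fin]
  refine ⟨fun h => ?_, fun h => ?_⟩
  · exact WBF_gen hRB X Z (fun k m : Fin l => if k ≤ m then 1 else 0) hX 1
      (fun c hc => hrk _ (d1 c hc)) (d5 1) (by simpa using h)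
  · exact WBF_gen hRB X Z (fun k m : Fin l => if k < m then 1 else 0) hX 0
      (fun c hc => hrk _ (d2 c hc)) (d6 0) (by simpa using h)

end Pool.Agent.helper35.MR
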